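import Pool.Agent.Q65.GR.Base

/-!
# Project GR (helper269): job UORT (helper65)
-/

set_option autoImplicit false
set_option linter.all false

open scoped Classical
open Finset

namespace Pool.Agent.Q65.GR

open Pool.Agent.Q269.GR

section

variable {F : Type} [Field F] [Algebra F2 F] [Fintype F] {Q : ℕ}
variable {J : Type} [Fintype J] [LinearOrder J]

theorem sum_v (hQ : Fintype.card F = Q ^ 2) (e : J → F × F) :
    ∑ v : J → F × F, ts (∑ i, ((v i).1 ^ Q * (e i).1 + (v i).2 ^ Q * (e i).2)) =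
      if ∀ i, e i = 0 then (Fintype.card F : ℝ) ^ (2 * Fintype.card J) else 0 := by
  by_cases h : ∀ i, e i = 0
  · rw [if_pos h]
    have h1 : ∀ v : J → F × F,
        ts (∑ i, ((v i).1 ^ Q * (e i).1 + (v i).2 ^ Q * (e i).2)) = (1 : ℝ) := by
      intro v
      rw [Finset.sum_eq_zero fun i _ => by rw [h i]; simp, ts_zero]
    rw [Finset.sum_congr rfl fun v _ => h1 v, Finset.sum_const, Finset.card_univ, nsmul_eq_mul,
      mul_one, Fintype.card_fun, Fintype.card_prod]
    push_cast
    rw [pow_mul, pow_two]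
  · rw [if_neg h]
    push Not at h
    obtain ⟨i₀, hi₀⟩ := h
    have hadd : ∀ x y : J → F × F,
        ts (∑ i, (((x + y) i).1 ^ Q * (e i).1 + ((x + y) i).2 ^ Q * (e i).2)) =
        ts (∑ i, ((x i).1 ^ Q * (e i).1 + (x i).2 ^ Q * (e i).2)) *
        ts (∑ i, ((y i).1 ^ Q * (e i).1 + (y i).2 ^ Q * (e i).2)) := by
      intro x y
      rw [← ts_add, ← Finset.sum_add_distrib]
      congr 1
      refine Finset.sum_congr rfl fun i _ => ?_
      simp only [Pi.add_apply, Prod.fst_add, Prod.snd_add, conj_add hQ]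
      ring
    have hsingle : ∀ b : F × F,
        (∑ i, (((Pi.single i₀ b : J → F × F) i).1 ^ Q * (e i).1 +
          ((Pi.single i₀ b : J → F × F) i).2 ^ Q * (e i).2)) =
        b.1 ^ Q * (e i₀).1 + b.2 ^ Q * (e i₀).2 := by
      intro b
      rw [Finset.sum_eq_single i₀]
      · rw [Pi.single_eq_same]
      · intro i _ hi
        rw [Pi.single_eq_of_ne hi]
        simp only [Prod.fst_zero, Prod.snd_zero, conj_zero hQ, zero_mul, add_zero]
      · intro h
        exact absurd (Finset.mem_univ _) h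
    by_cases h1 : (e i₀).1 = 0
    · have h2 : (e i₀).2 ≠ 0 := fun h2 => hi₀ (Prod.ext h1 h2)
      obtain ⟨t, ht⟩ := exists_ts_conj hQ h2
      refine sum_char _ hadd (Pi.single i₀ (0, t)) ?_
      rw [hsingle]
      simp only [conj_zero hQ, zero_mul, zero_add]
      rw [ht]
      norm_num
    · obtain ⟨t, ht⟩ := exists_ts_conj hQ h1
      refine sum_char _ hadd (Pi.single i₀ (t, 0)) ?_
      rw [hsingle]
      simp only [conj_zero hQ, zero_mul, add_zero]
      rw [ht]
      norm_num

theorem card_Kn (hQ : Fintype.card F = Q ^ 2) (M : J → J → F) (dd : J → F) (a c : J → F2) :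
    (Fintype.card F : ℝ) ^ (2 * Fintype.card J) * (Nat.card (Kn M dd a c) : ℝ) =
      ∑ w : J → F × F, ∑ v : J → F × F,
        ts (∑ i, ((v i).1 ^ Q * (eqn M dd a c w i).1 + (v i).2 ^ Q * (eqn M dd a c w i).2)) := by
  have h1 : Nat.card (Kn M dd a c) =
      (univ.filter fun w : J → F × F => ∀ i, eqn M dd a c w i = 0).card := by
    rw [← Fintype.card_subtype, ← Nat.card_eq_fintype_card]
    rfl
  rw [h1, ← Finset.sum_boole, Finset.mul_sum]
  refine Finset.sum_congr rfl fun w _ => ?_
  rw [sum_v hQ (eqn M dd a c w)]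
  split_ifs
  · rw [mul_one]
  · rw [mul_zero]

/-- the pairing of `v̄_i` and `w_j` -/
noncomputable def Pf (Q : ℕ) (z : J → V F) (i j : J) : F :=
  (z i).2.1 ^ Q * (z j).1.1 + (z i).2.2 ^ Q * (z j).1.2

theorem hf_Pf (hQ : Fintype.card F = Q ^ 2) (z : J → V F) (i j : J) :
    hf Q (z i) (z j) = Pf Q z i j + Pf Q z j i ^ Q := by
  simp only [hf, Pf, conj_add hQ, mul_pow, conj_conj hQ]
  ring

theorem eqn_sum (M : J → J → F) (dd : J → F) (a c : J → F2) (z : J → V F) (i : J) :
    (z i).2.1 ^ Q * (eqn M dd a c (fun i => (z i).1) i).1 +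
      (z i).2.2 ^ Q * (eqn M dd a c (fun i => (z i).1) i).2 =
    qf Q (dd i) (a i) (c i) (z i) + ∑ j, if j = i then 0 else M i j * Pf Q z i j := by
  have e1 : (eqn M dd a c (fun i => (z i).1) i).1 =
      ∑ j, (if j = i then (0 : F) else M i j) * (z j).1.1 + dd i * (z i).1.1 +
        cf (c i) * (z i).1.2 := by
    simp only [eqn, Prod.fst_add, Prod.fst_sum, Prod.smul_fst, smul_eq_mul]
    refine congrArg₂ _ (congrArg₂ _ (Finset.sum_congr rfl fun j _ => ?_) rfl) rfl
    split_ifs <;> rfl
  have e2 : (eqn M dd a c (fun i => (z i).1) i).2 =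
      ∑ j, (if j = i then (0 : F) else M i j) * (z j).1.2 + dd i * (z i).1.2 +
        cf (a i) * (z i).1.1 := by
    simp only [eqn, Prod.snd_add, Prod.snd_sum, Prod.smul_snd, smul_eq_mul]
    refine congrArg₂ _ (congrArg₂ _ (Finset.sum_congr rfl fun j _ => ?_) rfl) rfl
    split_ifs <;> rfl
  have e3 : ∑ j, (if j = i then 0 else M i j * Pf Q z i j) =
      (z i).2.1 ^ Q * ∑ j, (if j = i then (0 : F) else M i j) * (z j).1.1 +
      (z i).2.2 ^ Q * ∑ j, (if j = i then (0 : F) else M i j) * (z j).1.2 := by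
    rw [Finset.mul_sum, Finset.mul_sum, ← Finset.sum_add_distrib]
    refine Finset.sum_congr rfl fun j _ => ?_
    split_ifs
    · ring
    · unfold Pf
      ring
  rw [e1, e2, e3]
  unfold qf
  ring

end

section

variable {F : Type} [Field F] [Algebra F2 F] [Fintype F] {Q : ℕ}
variable {J : Type} [Fintype J] [LinearOrder J]

theorem ts_pairs (hQ : Fintype.card F = Q ^ 2) (M : J → J → F)
    (hM : ∀ i j, i < j → M j i = M i j ^ Q) (z : J → V F) :
    ts (∑ i, ∑ j, if j = i then 0 else M i j * Pf Q z i j) =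
      ts (∑ i, ∑ j, if i < j then M i j * hf Q (z i) (z j) else 0) := by
  have h1 : ∀ i j, ts (if j = i then 0 else M i j * Pf Q z i j) =
      ts (if i < j then M i j * Pf Q z i j else 0) *
        ts (if j < i then M i j * Pf Q z i j else 0) := by
    intro i j
    rcases lt_trichotomy i j with h | h | h
    · rw [if_neg h.ne', if_pos h, if_neg (not_lt.2 h.le), ts_zero, mul_one]
    · rw [if_pos h.symm, if_neg (not_lt.2 h.symm.le), if_neg (not_lt.2 h.le), ts_zero, mul_one]
    · rw [if_neg h.ne, if_pos h, if_neg (not_lt.2 h.le), ts_zero, one_mul]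
  have h2 : ∀ i j, ts (if i < j then M i j * hf Q (z i) (z j) else 0) =
      ts (if i < j then M i j * Pf Q z i j else 0) *
        ts (if i < j then M j i * Pf Q z j i else 0) := by
    intro i j
    by_cases h : i < j
    · rw [if_pos h, if_pos h, if_pos h, hf_Pf hQ, mul_add, ts_add, ← ts_conj hQ (M j i * Pf Q z j i),
        mul_pow, hM i j h, conj_conj hQ]
    · rw [if_neg h, if_neg h, if_neg h, ts_zero, mul_one]
  rw [ts_sum, ts_sum]
  simp only [ts_sum, h1, h2, Finset.prod_mul_distrib]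
  congr 1
  rw [Finset.prod_comm]

theorem sum_s (hQ : Fintype.card F = Q ^ 2) (c : J → J → F) :
    ∑ s : J → J → F, ts (∑ i, ∑ j, s i j * c i j) =
      if ∀ i j, c i j = 0 then (Fintype.card (J → J → F) : ℝ) else 0 := by
  by_cases h : ∀ i j, c i j = 0
  · rw [if_pos h]
    simp only [h, mul_zero, Finset.sum_const_zero, ts_zero]
    rw [Finset.sum_const, Finset.card_univ, nsmul_eq_mul, mul_one]
  · rw [if_neg h]
    push Not at h
    obtain ⟨i₀, j₀, hij⟩ := h
    obtain ⟨t, ht⟩ := exists_ts hij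
    refine sum_char _ ?_ (Pi.single i₀ (Pi.single j₀ t)) ?_
    · intro x y
      rw [← ts_add, ← Finset.sum_add_distrib]
      congr 1
      refine Finset.sum_congr rfl fun i _ => ?_
      rw [← Finset.sum_add_distrib]
      refine Finset.sum_congr rfl fun j _ => ?_
      rw [Pi.add_apply, Pi.add_apply, add_mul]
    · have h1 : ∑ i, ∑ j, (Pi.single i₀ (Pi.single j₀ t) : J → J → F) i j * c i j =
          t * c i₀ j₀ := by
        rw [Finset.sum_eq_single i₀]
        · rw [Finset.sum_eq_single j₀]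
          · rw [Pi.single_eq_same, Pi.single_eq_same]
          · intro j _ hj
            rw [Pi.single_eq_same, Pi.single_eq_of_ne hj, zero_mul]
          · intro h
            exact absurd (Finset.mem_univ _) h
        · intro i _ hi
          refine Finset.sum_eq_zero fun j _ => ?_
          rw [Pi.single_eq_of_ne hi, Pi.zero_apply, zero_mul]
        · intro h
          exact absurd (Finset.mem_univ _) h
      rw [h1, ht]
      norm_num

end

/-- **GR-UORT.** -/
theorem t_UORT : S_UORT := by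
  intro F _ _ _ Q hQ J _ _ S B dd a c hB
  obtain ⟨X, hX⟩ : ∃ X : (J → V F) → ℝ, ∀ z, X z = ts (∑ i, qf Q (dd i) (a i) (c i) (z i) +
      ∑ i, ∑ j, if i < j ∧ (i ∈ S ∨ j ∈ S) then B i j * hf Q (z i) (z j) else 0) :=
    ⟨_, fun _ => rfl⟩
  obtain ⟨C, hC⟩ : ∃ C : (J → V F) → J → J → F, ∀ z i j, C z i j =
      if i < j ∧ i ∉ S ∧ j ∉ S then hf Q (z i) (z j) else 0 := ⟨_, fun _ _ _ => rfl⟩
  have h1 : ∀ s : J → J → F, (Fintype.card F : ℝ) ^ (2 * Fintype.card J) *
      (Nat.card (Kn (HU S B Q s) dd a c) : ℝ) =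
      ∑ z : J → V F, X z * ts (∑ i, ∑ j, s i j * C z i j) := by
    intro s
    have hM : ∀ i j, i < j → HU S B Q s j i = HU S B Q s i j ^ Q := by
      intro i j hij
      unfold HU
      by_cases h : i ∈ S ∨ j ∈ S
      · rw [if_pos h, if_pos h.symm, hB]
      · rw [if_neg h, if_neg (fun h' => h h'.symm), if_pos hij, if_neg (not_lt.2 hij.le)]
    rw [card_Kn hQ, ← Fintype.sum_prod_type']
    refine (Fintype.sum_equiv (Equiv.arrowProdEquivProdArrow J (fun _ => F × F)
      (fun _ => F × F)) _ _ fun z => ?_).symm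
    have e1 : ∀ i, ((Equiv.arrowProdEquivProdArrow J (fun _ => F × F) (fun _ => F × F) z).2 i).1 ^ Q *
        (eqn (HU S B Q s) dd a c
          (Equiv.arrowProdEquivProdArrow J (fun _ => F × F) (fun _ => F × F) z).1 i).1 +
        ((Equiv.arrowProdEquivProdArrow J (fun _ => F × F) (fun _ => F × F) z).2 i).2 ^ Q *
        (eqn (HU S B Q s) dd a c
          (Equiv.arrowProdEquivProdArrow J (fun _ => F × F) (fun _ => F × F) z).1 i).2 =
        qf Q (dd i) (a i) (c i) (z i) +
          ∑ j, if j = i then 0 else HU S B Q s i j * Pf Q z i j :=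
      fun i => eqn_sum (HU S B Q s) dd a c z i
    rw [Finset.sum_congr rfl fun i _ => e1 i, Finset.sum_add_distrib, ts_add,
      ts_pairs hQ _ hM z, hX, ts_add, mul_assoc]
    congr 1
    rw [← ts_add, ← Finset.sum_add_distrib]
    congr 1
    refine Finset.sum_congr rfl fun i _ => ?_
    rw [← Finset.sum_add_distrib]
    refine Finset.sum_congr rfl fun j _ => ?_
    rw [hC]
    by_cases hij : i < j
    · by_cases h : i ∈ S ∨ j ∈ S
      · rw [if_pos ⟨hij, h⟩, if_neg, mul_zero, add_zero, if_pos hij]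
        · unfold HU
          rw [if_pos h]
        · rintro ⟨-, h2, h3⟩
          rcases h with h | h
          · exact h2 h
          · exact h3 h
      · have h' := h
        push Not at h'
        rw [if_neg (fun h2 => h h2.2), if_pos ⟨hij, h'⟩, zero_add, if_pos hij]
        unfold HU
        rw [if_neg h, if_pos hij]
    · rw [if_neg (fun h => hij h.1), if_neg (fun h => hij h.1), if_neg hij, mul_zero, add_zero]
  rw [Finset.mul_sum, Finset.sum_congr rfl fun s _ => h1 s, Finset.sum_comm]
  have h2 : ∀ z : J → V F, ∑ s : J → J → F, X z * ts (∑ i, ∑ j, s i j * C z i j) =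
      if (∀ i j, i < j → i ∉ S → j ∉ S → hf Q (z i) (z j) = 0)
        then (Fintype.card (J → J → F) : ℝ) * X z else 0 := by
    intro z
    rw [← Finset.mul_sum, sum_s hQ (C z)]
    have e : (∀ i j, C z i j = 0) ↔ ∀ i j, i < j → i ∉ S → j ∉ S → hf Q (z i) (z j) = 0 := by
      constructor
      · intro h i j h3 h4 h5
        have := h i j
        rwa [hC, if_pos ⟨h3, h4, h5⟩] at this
      · intro h i j
        rw [hC]
        by_cases h3 : i < j ∧ i ∉ S ∧ j ∉ S
        · rw [if_pos h3]
          exact h i j h3.1 h3.2.1 h3.2.2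
        · rw [if_neg h3]
    by_cases h3 : ∀ i j, C z i j = 0
    · rw [if_pos h3, if_pos (e.1 h3), mul_comm]
    · rw [if_neg h3, if_neg (fun h => h3 (e.2 h)), mul_zero]
  rw [Finset.sum_congr rfl fun z _ => h2 z, ← Finset.sum_filter, Finset.mul_sum]
  refine Finset.sum_congr rfl fun z _ => ?_
  rw [hX]

end Pool.Agent.Q65.GR
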