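import Pool.Agent.Q269.GR.StA

/-!
# Project GR (helper269): basic facts for the unitary jobs (helper65)
-/

set_option autoImplicit false
set_option linter.all false

open scoped Classical
open Finset

namespace Pool.Agent.Q65.GR

open Pool.Agent.Q269.GR
open Pool.Agent.Y164.PS (sg sg_add sg_zero sg_one sg_mul_self)

/-- A nontrivial character has sum zero. -/
theorem sum_char {A : Type} [AddCommGroup A] [Fintype A] (χ : A → ℝ)
    (h : ∀ x y, χ (x + y) = χ x * χ y) (x0 : A) (h0 : χ x0 ≠ 1) : ∑ x, χ x = 0 := by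
  have h1 : ∑ x, χ (x + x0) = ∑ x, χ x :=
    Fintype.sum_equiv (Equiv.addRight x0) _ _ fun x => rfl
  have h2 : ∑ x, χ (x + x0) = (∑ x, χ x) * χ x0 := by
    rw [Finset.sum_mul]
    exact Finset.sum_congr rfl fun x _ => h x x0
  rw [h2] at h1
  have h3 : (∑ x, χ x) * (χ x0 - 1) = 0 := by rw [mul_sub, h1, mul_one, sub_self]
  rcases mul_eq_zero.1 h3 with h4 | h4
  · exact h4
  · exact absurd (sub_eq_zero.1 h4) h0

section field

variable {F : Type} [Field F] [Algebra F2 F]

theorem charF : CharP F 2 := charP_of_injective_algebraMap (algebraMap F2 F).injective 2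

theorem add_self_F (x : F) : x + x = 0 := by
  have := charF (F := F)
  exact CharTwo.add_self_eq_zero x

theorem eq_of_add_F {x y : F} (h : x + y = 0) : x = y := by
  have := charF (F := F)
  rwa [CharTwo.add_eq_zero] at h

theorem ts_zero : ts (0 : F) = 1 := by
  unfold ts
  rw [map_zero, sg_zero]

theorem ts_add (x y : F) : ts (x + y) = ts x * ts y := by
  unfold ts
  rw [map_add, sg_add]

theorem ts_sq (x : F) : ts x * ts x = 1 := sg_mul_self _

theorem ts_cases (x : F) : ts x = 1 ∨ ts x = -1 := by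
  unfold ts sg
  split_ifs
  · exact Or.inl rfl
  · exact Or.inr rfl

theorem ts_sum {α : Type} (s : Finset α) (f : α → F) : ts (∑ i ∈ s, f i) = ∏ i ∈ s, ts (f i) := by
  induction s using Finset.induction_on with
  | empty => rw [Finset.sum_empty, Finset.prod_empty, ts_zero]
  | insert a s ha ih => rw [Finset.sum_insert ha, Finset.prod_insert ha, ts_add, ih]

variable [Fintype F] {Q : ℕ}

theorem exists_ts {e : F} (he : e ≠ 0) : ∃ t : F, ts (t * e) = -1 := by
  obtain ⟨t, ht⟩ := Algebra.trace_surjective F2 F 1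
  refine ⟨t / e, ?_⟩
  rw [div_mul_cancel₀ _ he]
  unfold ts
  rw [ht, sg_one]

theorem Q_pow (hQ : Fintype.card F = Q ^ 2) : ∃ k, Q = 2 ^ k := by
  have := charF (F := F)
  obtain ⟨n, -, hn⟩ := FiniteField.card F 2
  have h1 : Q ∣ 2 ^ (n : ℕ) := by
    rw [← hn, hQ]
    exact Dvd.intro_left (Q ^ 1) (by ring)
  obtain ⟨k, -, hk⟩ := (Nat.dvd_prime_pow Nat.prime_two).1 h1
  exact ⟨k, hk⟩

theorem Q_two (hQ : Fintype.card F = Q ^ 2) : 2 ≤ Q := by
  have h1 : 1 < Fintype.card F := Fintype.one_lt_card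
  rw [hQ] at h1
  by_contra h
  have h2 : Q = 0 ∨ Q = 1 := by omega
  rcases h2 with h2 | h2 <;> rw [h2] at h1 <;> norm_num at h1

theorem conj_add (hQ : Fintype.card F = Q ^ 2) (x y : F) : (x + y) ^ Q = x ^ Q + y ^ Q := by
  have := charF (F := F)
  obtain ⟨k, hk⟩ := Q_pow hQ
  rw [hk]
  exact add_pow_char_pow _ _ 2 k

theorem conj_zero (hQ : Fintype.card F = Q ^ 2) : (0 : F) ^ Q = 0 :=
  zero_pow (by have := Q_two hQ; omega)

theorem conj_conj (hQ : Fintype.card F = Q ^ 2) (x : F) : (x ^ Q) ^ Q = x := by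
  rw [← pow_mul, ← pow_two, ← hQ]
  exact FiniteField.pow_card x

theorem conj_inj (hQ : Fintype.card F = Q ^ 2) {x y : F} (h : x ^ Q = y ^ Q) : x = y := by
  rw [← conj_conj hQ x, h, conj_conj hQ]

theorem conj_ne (hQ : Fintype.card F = Q ^ 2) {x : F} (h : x ≠ 0) : x ^ Q ≠ 0 := pow_ne_zero _ h

theorem cf_conj (hQ : Fintype.card F = Q ^ 2) (x : F2) : (cf x : F) ^ Q = cf x := by
  have h : ∀ z : F2, z = 0 ∨ z = 1 := by decide
  unfold cf
  rcases h x with h | h
  · rw [h, map_zero, conj_zero hQ]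
  · rw [h, map_one, one_pow]

/-- The trace is invariant under conjugation. -/
theorem ts_conj (hQ : Fintype.card F = Q ^ 2) (x : F) : ts (x ^ Q) = ts x := by
  have := charF (F := F)
  obtain ⟨k, hk⟩ := Q_pow hQ
  have h1 : ∀ y : F, Algebra.trace F2 F (y ^ 2) = Algebra.trace F2 F y := by
    intro y
    have h2 := Algebra.trace_eq_of_algEquiv (FiniteField.frobeniusAlgEquivOfAlgebraic F2 F) y
    rw [← h2]
    congr 1
  have h2 : ∀ (j : ℕ) (y : F), Algebra.trace F2 F (y ^ 2 ^ j) = Algebra.trace F2 F y := by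
    intro j
    induction j with
    | zero => intro y; rw [pow_zero, pow_one]
    | succ j ih => intro y; rw [pow_succ, pow_mul, h1, ih]
  unfold ts
  rw [hk, h2]

theorem exists_ts_conj (hQ : Fintype.card F = Q ^ 2) {e : F} (he : e ≠ 0) :
    ∃ t : F, ts (t ^ Q * e) = -1 := by
  obtain ⟨t, ht⟩ := exists_ts he
  exact ⟨t ^ Q, by rw [conj_conj hQ]; exact ht⟩

/-- The fixed field has at most `Q` elements. -/
theorem card_fix (hQ : Fintype.card F = Q ^ 2) :
    (univ.filter fun x : F => x ^ Q = x).card ≤ Q := by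
  have hQ2 := Q_two hQ
  have h1 : (Polynomial.X ^ Q - Polynomial.X : Polynomial F) ≠ 0 :=
    FiniteField.X_pow_card_sub_X_ne_zero F (by omega)
  have h2 : (univ.filter fun x : F => x ^ Q = x) ⊆
      (Polynomial.X ^ Q - Polynomial.X : Polynomial F).roots.toFinset := by
    intro x hx
    rw [Finset.mem_filter] at hx
    rw [Multiset.mem_toFinset, Polynomial.mem_roots h1, Polynomial.IsRoot.def,
      Polynomial.eval_sub, Polynomial.eval_pow, Polynomial.eval_X, hx.2, sub_self]
  refine (Finset.card_le_card h2).trans ((Multiset.toFinset_card_le _).trans ?_)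
  refine (Polynomial.card_roots' _).trans ?_
  rw [FiniteField.X_pow_card_sub_X_natDegree_eq F (by omega)]

theorem exists_nonfix (hQ : Fintype.card F = Q ^ 2) : ∃ x : F, x ^ Q ≠ x := by
  by_contra h
  push Not at h
  have h1 := card_fix hQ
  rw [Finset.filter_true_of_mem fun x _ => h x, Finset.card_univ, hQ] at h1
  have h2 := Q_two hQ
  nlinarith

/-- The trace of an element of the fixed field vanishes. -/
theorem ts_fix (hQ : Fintype.card F = Q ^ 2) {e : F} (he : e ^ Q = e) : ts e = 1 := by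
  obtain ⟨x, hx⟩ := exists_nonfix hQ
  obtain ⟨t, ht⟩ : ∃ t, t = x + x ^ Q := ⟨_, rfl⟩
  have ht0 : t ≠ 0 := by
    intro h
    rw [ht] at h
    exact hx (eq_of_add_F h).symm
  have htc : t ^ Q = t := by
    rw [ht, conj_add hQ, conj_conj hQ, add_comm]
  obtain ⟨y, hy⟩ : ∃ y, y = e * (x / t) := ⟨_, rfl⟩
  have h1 : y + y ^ Q = e := by
    rw [hy, mul_pow, div_pow, htc, he, ← mul_add, ← add_div, ← ht, div_self ht0, mul_one]
  rw [← h1, ts_add, ts_conj hQ, ts_sq]

/-- The characters `x ↦ ts (x e)`. -/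
theorem sum_ts (e : F) : ∑ x : F, ts (x * e) = if e = 0 then (Fintype.card F : ℝ) else 0 := by
  by_cases he : e = 0
  · rw [if_pos he, he]
    simp only [mul_zero, ts_zero]
    rw [Finset.sum_const, Finset.card_univ, nsmul_eq_mul, mul_one]
  · rw [if_neg he]
    obtain ⟨t, ht⟩ := exists_ts he
    refine sum_char _ (fun x y => ?_) t (by rw [ht]; norm_num)
    rw [add_mul, ts_add]

/-! ### the Hermitian form -/

theorem hf_add_right (Q : ℕ) (z x y : V F) : hf Q z (x + y) = hf Q z x + hf Q z y := by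
  simp only [hf, Prod.fst_add, Prod.snd_add]
  ring

theorem hf_smul_right (Q : ℕ) (t : F) (z x : V F) : hf Q z (t • x) = t * hf Q z x := by
  simp only [hf, Prod.smul_fst, Prod.smul_snd, smul_eq_mul]
  ring

theorem hf_conj (hQ : Fintype.card F = Q ^ 2) (z x : V F) : hf Q x z = hf Q z x ^ Q := by
  simp only [hf, conj_add hQ, mul_pow, conj_conj hQ]
  ring

theorem hf_add_left (hQ : Fintype.card F = Q ^ 2) (x y z : V F) :
    hf Q (x + y) z = hf Q x z + hf Q y z := by
  simp only [hf, Prod.fst_add, Prod.snd_add, conj_add hQ]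
  ring

theorem hf_smul_left (t : F) (x z : V F) : hf Q (t • x) z = t ^ Q * hf Q x z := by
  simp only [hf, Prod.smul_fst, Prod.smul_snd, smul_eq_mul, mul_pow]
  ring

/-- The form as a linear form of the second argument. -/
noncomputable def hfL (Q : ℕ) (z : V F) : V F →ₗ[F] F where
  toFun x := hf Q z x
  map_add' x y := hf_add_right Q z x y
  map_smul' t x := by rw [hf_smul_right]; rfl

theorem hf_zero_right (Q : ℕ) (z : V F) : hf Q z 0 = 0 := (hfL Q z).map_zero

theorem hf_nondeg (hQ : Fintype.card F = Q ^ 2) {h : V F} (hh : ∀ z, hf Q z h = 0) : h = 0 := by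
  have h1 := hh ((0, 0), (1, 0))
  have h2 := hh ((0, 0), (0, 1))
  have h3 := hh ((1, 0), (0, 0))
  have h4 := hh ((0, 1), (0, 0))
  simp only [hf, one_pow, conj_zero hQ, one_mul, zero_mul, mul_zero, mul_one, add_zero,
    zero_add] at h1 h2 h3 h4
  obtain ⟨⟨x, y⟩, ⟨v1, v2⟩⟩ := h
  simp only at h1 h2 h3 h4
  rw [h1, h2, h3, h4]
  rfl

theorem card_V : Fintype.card (V F) = Fintype.card F ^ 4 := by
  rw [Fintype.card_prod, Fintype.card_prod]
  ring

theorem card_pow {M : Type} [AddCommGroup M] [Module F M] [Module.Finite F M] :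
    Nat.card M = Fintype.card F ^ Module.finrank F M := by
  have : Finite M := Module.finite_of_finite F
  have : Fintype M := Fintype.ofFinite M
  rw [Nat.card_eq_fintype_card]
  exact Module.card_eq_pow_finrank

theorem pow_card_inj {a b : ℕ} (h : Fintype.card F ^ a = Fintype.card F ^ b) : a = b :=
  Nat.pow_right_injective (Fintype.one_lt_card (α := F)) h

theorem pow_card_le {a b : ℕ} (h : Fintype.card F ^ a ≤ Fintype.card F ^ b) : a ≤ b :=
  (Nat.pow_le_pow_iff_right (Fintype.one_lt_card (α := F))).1 h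

end field

end Pool.Agent.Q65.GR
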